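import Pool.Agent.N991.QS.Stm

set_option autoImplicit false

/-!
# Project QS (helper991): leaf NOE (helper985)

Subgroups of finitely generated nilpotent groups are finitely generated.
-/

namespace Pool.Agent.N985.QS.NOE

/-- extensions -/
theorem fg_ext {G G' : Type} [Group G] [Group G'] (f : G →* G') (N : Subgroup G)
    (h1 : (N.map f).FG) (h2 : (N ⊓ f.ker).FG) : N.FG := by
  classical
  obtain ⟨T, hT⟩ := h1
  have hl : ∀ y : G', ∃ x : G, y ∈ T → x ∈ N ∧ f x = y := by
    intro y
    by_cases hy : y ∈ T
    · have h : y ∈ N.map f := by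
        rw [← hT]
        exact Subgroup.subset_closure hy
      obtain ⟨x, hx, rfl⟩ := h
      exact ⟨x, fun _ => ⟨hx, rfl⟩⟩
    · exact ⟨1, fun h => absurd h hy⟩
  choose L hL using hl
  have hLN : Subgroup.closure ((T.image L : Finset G) : Set G) ≤ N := by
    rw [Subgroup.closure_le]
    intro x hx
    rw [Finset.mem_coe, Finset.mem_image] at hx
    obtain ⟨y, hy, rfl⟩ := hx
    exact (hL y hy).1
  have e : N = Subgroup.closure ((T.image L : Finset G) : Set G) ⊔ (N ⊓ f.ker) := by
    apply le_antisymm
    · intro x hx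
      have h2 : N.map f ≤ (Subgroup.closure ((T.image L : Finset G) : Set G)).map f := by
        rw [← hT, Subgroup.closure_le]
        intro y hy
        exact ⟨L y, Subgroup.subset_closure (Finset.mem_coe.2 (Finset.mem_image_of_mem L hy)),
          (hL y hy).2⟩
      obtain ⟨y, hy, hyx⟩ := h2 ⟨x, hx, rfl⟩
      have hyN : y ∈ N := hLN hy
      have h3 : x = y * (y⁻¹ * x) := by group
      rw [h3]
      refine Subgroup.mul_mem_sup hy (Subgroup.mem_inf.2 ⟨N.mul_mem (N.inv_mem hyN) hx, ?_⟩)
      rw [MonoidHom.mem_ker, map_mul, map_inv, hyx, inv_mul_cancel]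
    · exact sup_le hLN inf_le_left
  rw [e]
  exact Subgroup.FG.sup ⟨_, rfl⟩ h2

/-- subgroups of finitely generated commutative groups -/
theorem fg_comm {A : Type} [CommGroup A] (hA : Group.FG A) (N : Subgroup A) : N.FG := by
  have h1 : AddGroup.FG (Additive A) := inferInstance
  have h2 : Module.Finite ℤ (Additive A) := Module.Finite.iff_addGroup_fg.mpr h1
  have h3 : IsNoetherian ℤ (Additive A) := inferInstance
  rw [Subgroup.fg_iff_add_fg, ← AddSubgroup.toIntSubmodule_toAddSubgroup N.toAddSubgroup,
    ← Submodule.fg_iff_addSubgroup_fg]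
  exact h3.noetherian _

/-- subgroups of finitely generated central subgroups -/
theorem fg_central {Q : Type} [Group Q] (B N : Subgroup Q) (hB : B.FG)
    (hc : B ≤ Subgroup.center Q) (hN : N ≤ B) : N.FG := by
  letI : CommGroup B := { (inferInstance : Group B) with
    mul_comm := fun a b => Subtype.ext ((Subgroup.mem_center_iff.1 (hc a.2) b).symm) }
  have h1 : Group.FG B := (Group.fg_iff_subgroup_fg B).2 hB
  have h2 : (N.subgroupOf B).FG := fg_comm h1 _
  obtain ⟨T, hT⟩ := h2
  classical
  refine ⟨T.image B.subtype, ?_⟩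
  rw [Finset.coe_image, ← MonoidHom.map_closure, hT, Subgroup.subgroupOf_map_subtype]
  exact inf_eq_left.2 hN

section lcs

variable {G : Type} [Group G]

/-- commutators with elements of the lower central series -/
theorem comm_mem {n : ℕ} (g m : G) (hm : m ∈ (⊤ : Subgroup G).lowerCentralSeries n) :
    m * g * m⁻¹ * g⁻¹ ∈ (⊤ : Subgroup G).lowerCentralSeries (n + 1) := by
  rw [Subgroup.lowerCentralSeries_succ]
  exact Subgroup.commutator_mem_commutator hm (Subgroup.mem_top g)

/-- a subgroup between two terms is normal -/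
theorem normal_of_le {n : ℕ} {M : Subgroup G} (h1 : (⊤ : Subgroup G).lowerCentralSeries (n + 1) ≤ M)
    (h2 : M ≤ (⊤ : Subgroup G).lowerCentralSeries n) : M.Normal := by
  refine ⟨fun m hm g => ?_⟩
  have h3 := M.inv_mem (h1 (comm_mem g m (h2 hm)))
  have e : g * m * g⁻¹ = (m * g * m⁻¹ * g⁻¹)⁻¹ * m := by group
  rw [e]
  exact M.mul_mem h3 hm

/-- the quotients of the lower central series are finitely generated -/
theorem lcs_fg [hG : Group.FG G] (n : ℕ) : ∃ S : Finset G,
    (∀ s ∈ S, s ∈ (⊤ : Subgroup G).lowerCentralSeries n) ∧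
    (⊤ : Subgroup G).lowerCentralSeries n ≤
      Subgroup.closure (S : Set G) ⊔ (⊤ : Subgroup G).lowerCentralSeries (n + 1) := by
  classical
  obtain ⟨X, hX⟩ := (Group.fg_def.1 hG)
  induction n with
  | zero =>
    refine ⟨X, fun s _ => Subgroup.mem_top s, ?_⟩
    rw [hX]
    exact le_sup_of_le_left le_top
  | succ n ih =>
    obtain ⟨S, hS1, hS2⟩ := ih
    let T : Finset G := (S ×ˢ X).image fun q => q.1 * q.2 * q.1⁻¹ * q.2⁻¹
    have hT : ∀ t ∈ T, t ∈ (⊤ : Subgroup G).lowerCentralSeries (n + 1) := by
      intro t ht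
      obtain ⟨⟨s, x⟩, hq, rfl⟩ := Finset.mem_image.1 ht
      exact comm_mem x s (hS1 s (Finset.mem_product.1 hq).1)
    refine ⟨T, hT, ?_⟩
    set M : Subgroup G := Subgroup.closure (T : Set G) ⊔
      (⊤ : Subgroup G).lowerCentralSeries (n + 1 + 1) with hM
    have hM1 : M ≤ (⊤ : Subgroup G).lowerCentralSeries (n + 1) :=
      sup_le ((Subgroup.closure_le _).2 fun t ht => hT t ht)
        (Subgroup.lowerCentralSeries_antitone _ (Nat.le_succ _))
    have hM2 : (⊤ : Subgroup G).lowerCentralSeries (n + 1 + 1) ≤ M := le_sup_right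
    have hMn : M.Normal := normal_of_le hM2 hM1
    let π : G →* G ⧸ M := QuotientGroup.mk' M
    have hcomm : ∀ a b : G, π a * π b = π b * π a ↔ a * b * a⁻¹ * b⁻¹ ∈ M := by
      intro a b
      rw [← QuotientGroup.eq_one_iff (N := M)]
      change _ ↔ π (a * b * a⁻¹ * b⁻¹) = 1
      rw [map_mul, map_mul, map_mul, map_inv, map_inv, mul_inv_eq_one, mul_inv_eq_iff_eq_mul]
    have hS3 : ∀ s ∈ S, ∀ g, π s * π g = π g * π s := by
      intro s hs g
      have h1 : Subgroup.closure (X : Set G) ≤ (Subgroup.centralizer {π s}).comap π := by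
        rw [Subgroup.closure_le]
        intro x hx
        rw [SetLike.mem_coe, Subgroup.mem_comap, Subgroup.mem_centralizer_singleton_iff]
        refine ((hcomm s x).2 ?_).symm
        exact Subgroup.mem_sup_left (Subgroup.subset_closure
          (Finset.mem_coe.2 (Finset.mem_image.2 ⟨(s, x), Finset.mem_product.2 ⟨hs, hx⟩, rfl⟩)))
      rw [hX] at h1
      have h2 := h1 (Subgroup.mem_top g)
      rw [Subgroup.mem_comap, Subgroup.mem_centralizer_singleton_iff] at h2
      exact h2.symm
    have hC : (⊤ : Subgroup G).lowerCentralSeries n ≤ (Subgroup.center (G ⧸ M)).comap π := by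
      refine hS2.trans (sup_le ?_ ?_)
      · rw [Subgroup.closure_le]
        intro s hs
        rw [SetLike.mem_coe, Subgroup.mem_comap, Subgroup.mem_center_iff]
        intro q
        obtain ⟨g, rfl⟩ := QuotientGroup.mk'_surjective M q
        exact (hS3 s hs g).symm
      · intro a ha
        rw [Subgroup.mem_comap, Subgroup.mem_center_iff]
        intro q
        obtain ⟨g, rfl⟩ := QuotientGroup.mk'_surjective M q
        exact ((hcomm a g).2 (hM2 (comm_mem g a ha))).symm
    rw [Subgroup.lowerCentralSeries_succ, Subgroup.commutator_le]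
    intro a ha g _
    have h3 := hC ha
    rw [Subgroup.mem_comap, Subgroup.mem_center_iff] at h3
    exact (hcomm a g).1 (h3 (π g)).symm

/-- finitely generated nilpotent groups are Noetherian -/
theorem noeth [hG : Group.FG G] {c : ℕ} (hc : (⊤ : Subgroup G).lowerCentralSeries c = ⊥) :
    ∀ N : Subgroup G, N.FG := by
  have key : ∀ (k n : ℕ), n + k = c → ∀ N ≤ (⊤ : Subgroup G).lowerCentralSeries n, N.FG := by
    intro k
    induction k with
    | zero =>
      intro n hn N hN
      rw [← hn, add_zero] at hc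
      rw [hc, le_bot_iff] at hN
      rw [hN]
      exact Subgroup.FG.bot
    | succ k ih =>
      intro n hn N hN
      set M := (⊤ : Subgroup G).lowerCentralSeries (n + 1) with hM
      have hMn : M.Normal := inferInstance
      let π : G →* G ⧸ M := QuotientGroup.mk' M
      obtain ⟨S, hS1, hS2⟩ := lcs_fg (G := G) n
      classical
      apply fg_ext π N
      · apply fg_central (Subgroup.closure ((S.image π : Finset (G ⧸ M)) : Set (G ⧸ M)))
          (N.map π) ⟨_, rfl⟩
        · rw [Subgroup.closure_le]
          intro y hy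
          obtain ⟨s, hs, rfl⟩ := Finset.mem_image.1 (Finset.mem_coe.1 hy)
          rw [SetLike.mem_coe, Subgroup.mem_center_iff]
          intro q
          obtain ⟨g, rfl⟩ := QuotientGroup.mk'_surjective M q
          have h1 : π (s * g * s⁻¹ * g⁻¹) = 1 :=
            (QuotientGroup.eq_one_iff _).2 (comm_mem g s (hS1 s hs))
          rw [map_mul, map_mul, map_mul, map_inv, map_inv, mul_inv_eq_one,
            mul_inv_eq_iff_eq_mul] at h1
          exact h1.symm
        · rw [Finset.coe_image, ← MonoidHom.map_closure]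
          refine (Subgroup.map_mono (hN.trans hS2)).trans ?_
          rw [Subgroup.map_sup]
          refine sup_le le_rfl ?_
          rintro _ ⟨x, hx, rfl⟩
          have h1 : π x = 1 := (QuotientGroup.eq_one_iff _).2 hx
          rw [h1]
          exact Subgroup.one_mem _
      · refine ih (n + 1) (by omega) _ ?_
        rw [QuotientGroup.ker_mk']
        exact inf_le_right
  intro N
  exact key c 0 (zero_add c) N le_top

end lcs

theorem t_NOE : Pool.Agent.N991.QS.S_NOE := by
  rintro H _ D N hH hD hDN hn ⟨c, hc⟩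
  have hDn : D.Normal := ⟨fun d hd h => hn h d hd⟩
  have h1 : (⊤ : Subgroup (H ⧸ D)).lowerCentralSeries c = ⊥ := by
    have h2 := Subgroup.map_lowerCentralSeries (⊤ : Subgroup H) (QuotientGroup.mk' D) c
    rw [← MonoidHom.range_eq_map, QuotientGroup.range_mk'] at h2
    rw [← h2, Subgroup.map_eq_bot_iff, QuotientGroup.ker_mk']
    exact hc
  apply fg_ext (QuotientGroup.mk' D) N
  · exact noeth h1 _
  · rw [QuotientGroup.ker_mk', inf_eq_right.2 hDN]
    exact hD

end Pool.Agent.N985.QS.NOE
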