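import Pool.Agent.N991.QS.Stm
import Pool.Agent.Helper240.Amen.HB

set_option autoImplicit false

/-!
# Project QS (helper991): leaf TAU (helper985)

A subadditive function on a nilpotent group which grows by one under multiplication by the central
element `t` gives a homomorphism which is `1` at `t`.
-/

namespace Pool.Agent.N985.QS.TAU

open Pool.Agent.N991.QS Pool.Agent.Helper240.Amen

/-- right translation of bounded functions -/
noncomputable def rtr (G : Type) [Group G] : G →* Module.End ℝ (Bdd G) where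
  toFun g :=
    { toFun := fun f => ⟨fun x => f.1 (x * g), by
        obtain ⟨C, hC⟩ := f.2
        exact ⟨C, fun x => hC _⟩⟩
      map_add' := fun _ _ => rfl
      map_smul' := fun _ _ => rfl }
  map_one' := by
    ext f x
    show f.1 (x * 1) = f.1 x
    rw [mul_one]
  map_mul' g h := by
    ext f x
    show f.1 (x * (g * h)) = f.1 (x * g * h)
    rw [mul_assoc]

/-- an invariant mean -/
theorem exists_mean {G : Type} [Group G] (h : InvHB G) : ∃ M : Bdd G →ₗ[ℝ] ℝ,
    (∀ (f : Bdd G) (c : ℝ), (∀ x, f.1 x ≤ c) → M f ≤ c) ∧ ∀ g f, M (rtr G g f) = M f := by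
  have bdd : ∀ f : Bdd G, BddAbove (Set.range f.1) := by
    intro f
    obtain ⟨C, hC⟩ := f.2
    refine ⟨C, ?_⟩
    rintro _ ⟨x, rfl⟩
    exact (le_abs_self _).trans (hC x)
  obtain ⟨M, hM1, hM2⟩ := h (Bdd G) (rtr G) (fun f => ⨆ x, f.1 x) (by
      intro c hc f
      exact (Real.mul_iSup_of_nonneg hc.le _).symm) (by
      intro f g
      apply ciSup_le
      intro x
      exact add_le_add (le_ciSup (bdd f) x) (le_ciSup (bdd g) x)) (by
      intro g f
      apply ciSup_le
      intro x
      exact le_ciSup (bdd f) (x * g))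
  exact ⟨M, fun f c hf => (hM1 f).trans (ciSup_le hf), hM2⟩

theorem t_TAU : S_TAU := by
  intro Γ _ t d hΓ hc hd ht
  have hs : ∃ n, derivedSeries Γ n = ⊥ := (inferInstance : Group.IsSolvable Γ).solvable
  obtain ⟨n, hn⟩ := hs
  obtain ⟨M, hM1, hM2⟩ := exists_mean (InvHB.of_derived n Γ hn)
  have hbd : ∀ b : Γ, ∃ C : ℝ, ∀ a, |d (a * b) - d a| ≤ C := by
    intro b
    refine ⟨max (d b) (d b⁻¹), fun a => ?_⟩
    have h1 := hd a b
    have h2 := hd (a * b) b⁻¹
    rw [mul_inv_cancel_right] at h2
    have h3 := le_max_left (d b) (d b⁻¹)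
    have h4 := le_max_right (d b) (d b⁻¹)
    rw [abs_le]
    constructor <;> linarith
  let F : Γ → Bdd Γ := fun b => ⟨fun a => d (a * b) - d a, hbd b⟩
  have hF : ∀ b c, F (b * c) = F b + rtr Γ b (F c) := by
    intro b c
    ext a
    show d (a * (b * c)) - d a = (d (a * b) - d a) + (d (a * b * c) - d (a * b))
    rw [mul_assoc]
    ring
  have hadd : ∀ b c, M (F (b * c)) = M (F b) + M (F c) := by
    intro b c
    rw [hF, map_add, hM2]
  refine ⟨AddMonoidHom.mk' (fun b => M (F (Additive.toMul b))) fun b c => hadd _ _, ?_⟩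
  show M (F t) = 1
  have h5 : ∀ a, (F t).1 a = 1 := by
    intro a
    show d (a * t) - d a = 1
    rw [← hc, ht]
    ring
  apply le_antisymm
  · exact hM1 _ _ fun a => (h5 a).le
  · have := hM1 (-(F t)) (-1) fun a => by
      show -(F t).1 a ≤ -1
      rw [h5]
    rw [map_neg] at this
    linarith

end Pool.Agent.N985.QS.TAU
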